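import Pool.Agent.helper36.LT.ArtinDefs

set_option autoImplicit false

/-!
# Module LT-N3: the two-dimensional representation of a dihedral Artin group

Notation: `r ^ i` started at index `n` is the alternating product `a n * a (n + 1) * ...`
(`i` factors), where `a n` is `s` for even `n` and `t` for odd `n`.
-/

namespace Pool.Agent.helper80.LT

open Pool.Agent.helper36.LT Matrix

/-! ## Plane geometry -/

/-- the action on vectors -/
noncomputable def act (g : GL (Fin 2) ℝ) (v : Fin 2 → ℝ) : Fin 2 → ℝ :=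
  (g : Matrix (Fin 2) (Fin 2) ℝ).mulVec v

/-- product of the coordinates -/
def pr (v : Fin 2 → ℝ) : ℝ := v 0 * v 1

lemma act_mul (g h : GL (Fin 2) ℝ) (v : Fin 2 → ℝ) : act (g * h) v = act g (act h v) := by
  rw [act, act, act, Matrix.mulVec_mulVec, Matrix.GeneralLinearGroup.coe_mul]

lemma act_one (v : Fin 2 → ℝ) : act 1 v = v := by
  simp [act]

/-- the subgroup of the matrices preserving the union of the two axes -/
def K : Subgroup (GL (Fin 2) ℝ) where
  carrier := {g | ∀ v, pr (act g v) = 0 ↔ pr v = 0}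
  mul_mem' := by
    intro g h hg hh v
    rw [act_mul, hg, hh]
  one_mem' := by
    intro v
    rw [act_one]
  inv_mem' := by
    intro g hg v
    rw [← hg (act g⁻¹ v), ← act_mul, mul_inv_cancel, act_one]

/-- the rotation -/
noncomputable def Sg : GL (Fin 2) ℝ :=
  GeneralLinearGroup.mkOfDetNeZero !![0, 1; -1, 0] (by simp [Matrix.det_fin_two])

lemma Sg_coe : (Sg : Matrix (Fin 2) (Fin 2) ℝ) = !![0, 1; -1, 0] := rfl

lemma pr_Sg (v : Fin 2 → ℝ) : pr (act Sg v) = - pr v := by
  simp [pr, act, Sg_coe, Matrix.mulVec, dotProduct, Fin.sum_univ_two]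
  ring

lemma Sg_mem : Sg ∈ K := by
  intro v
  rw [pr_Sg, neg_eq_zero]

lemma Sg_sq_comm (g : GL (Fin 2) ℝ) : Commute (Sg * Sg) g := by
  apply Units.ext
  have h : (Sg : Matrix (Fin 2) (Fin 2) ℝ) * (Sg : Matrix (Fin 2) (Fin 2) ℝ) = -1 := by
    rw [Sg_coe]
    ext i j
    fin_cases i <;> fin_cases j <;> simp [Matrix.mul_apply, Fin.sum_univ_two]
  rw [Units.val_mul, Units.val_mul, Units.val_mul, h]
  simp [h]

/-- `ρ ^ i` up to sign -/
lemma rho_zpow (lam : ℝ) (rho : GL (Fin 2) ℝ)
    (hrho : (rho : Matrix (Fin 2) (Fin 2) ℝ) = !![-lam, 1; -1, 0]) (S : ℤ → ℝ) (h0 : S 0 = 0)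
    (h1 : S 1 = 1) (hrec : ∀ i, S (i + 1) + S (i - 1) = lam * S i) (i : ℤ) :
    ∃ c : ℝ, c * c = 1 ∧ ((rho ^ i : GL (Fin 2) ℝ) : Matrix (Fin 2) (Fin 2) ℝ) =
      c • !![S (i + 1), - S i; S i, - S (i - 1)] := by
  have hm1 : S (-1) = -1 := by
    have := hrec 0
    simp only [zero_add, zero_sub, h0, h1, mul_zero] at this
    linarith
  have hstep : ∀ i : ℤ, (!![-lam, 1; -1, 0] : Matrix (Fin 2) (Fin 2) ℝ) *
      !![S (i + 1), - S i; S i, - S (i - 1)] =
      (-1 : ℝ) • !![S (i + 1 + 1), - S (i + 1); S (i + 1), - S (i + 1 - 1)] := by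
    intro i
    have e1 := hrec i
    have e2 := hrec (i + 1)
    rw [add_sub_cancel_right] at e2
    rw [add_sub_cancel_right]
    ext a b
    fin_cases a <;> fin_cases b <;>
      simp [Matrix.mul_apply, Fin.sum_univ_two] <;> linarith
  induction i using Int.induction_on with
  | zero =>
    refine ⟨1, by norm_num, ?_⟩
    rw [zpow_zero, Units.val_one, one_smul]
    simp only [zero_add, zero_sub, h0, h1, hm1]
    ext a b
    fin_cases a <;> fin_cases b <;> simp
  | succ i ih =>
    obtain ⟨c, hc, hi⟩ := ih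
    refine ⟨-c, by linarith, ?_⟩
    rw [add_comm (i : ℤ) 1, _root_.zpow_add, zpow_one, Units.val_mul, hi, hrho, Matrix.mul_smul, hstep,
      smul_smul, add_comm 1 (i : ℤ)]
    ring_nf
  | pred i ih =>
    obtain ⟨c, hc, hi⟩ := ih
    refine ⟨-c, by linarith, ?_⟩
    have key : (rho : Matrix (Fin 2) (Fin 2) ℝ) * ((-c) • !![S (-(i : ℤ) - 1 + 1), - S (-(i : ℤ) - 1);
        S (-(i : ℤ) - 1), - S (-(i : ℤ) - 1 - 1)]) =
        ((rho ^ (-(i : ℤ)) : GL (Fin 2) ℝ) : Matrix (Fin 2) (Fin 2) ℝ) := by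
      rw [hi, hrho, Matrix.mul_smul, hstep, smul_smul]
      simp only [sub_add_cancel]
      ring_nf
    have h2 : rho ^ (-(i : ℤ) - 1) = rho⁻¹ * rho ^ (-(i : ℤ)) := by
      rw [sub_eq_add_neg, add_comm, _root_.zpow_add, _root_.zpow_neg_one]
    rw [h2, Units.val_mul, ← key, ← Matrix.mul_assoc, ← Units.val_mul, inv_mul_cancel,
      Units.val_one, Matrix.one_mul]

lemma pr_rho (lam : ℝ) (rho : GL (Fin 2) ℝ)
    (hrho : (rho : Matrix (Fin 2) (Fin 2) ℝ) = !![-lam, 1; -1, 0]) (S : ℤ → ℝ) (h0 : S 0 = 0)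
    (h1 : S 1 = 1) (hrec : ∀ i, S (i + 1) + S (i - 1) = lam * S i) (i : ℤ) (v : Fin 2 → ℝ) :
    pr (act (rho ^ i) v) = (S (i + 1) * v 0 - S i * v 1) * (S i * v 0 - S (i - 1) * v 1) := by
  obtain ⟨c, hc, h⟩ := rho_zpow lam rho hrho S h0 h1 hrec i
  rw [pr, act, h]
  simp [Matrix.mulVec, dotProduct, Fin.sum_univ_two]
  linear_combination ((S (i + 1) * v 0 - S i * v 1) * (S i * v 0 - S (i - 1) * v 1)) * hc

/-! ## Alternating words -/

section words

variable {G : Type} [Group G]

/-- the letters -/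
def aa (s t : G) (n : ℤ) : G := if Even n then s else t

/-- positive alternating words, read from the index `n` on -/
def Rp (a : ℤ → G) : ℤ → ℕ → G
  | _, 0 => 1
  | n, k + 1 => a n * Rp a (n + 1) k

/-- negative alternating words -/
def Rn (a : ℤ → G) : ℤ → ℕ → G
  | _, 0 => 1
  | n, k + 1 => (a (n - 1))⁻¹ * Rn a (n - 1) k

/-- alternating words -/
def R (a : ℤ → G) (n : ℤ) : ℤ → G
  | Int.ofNat k => Rp a n k
  | Int.negSucc k => Rn a n (k + 1)

lemma R_zero (a : ℤ → G) (n : ℤ) : R a n 0 = 1 := rfl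

lemma R_succ (a : ℤ → G) (n i : ℤ) : R a n (i + 1) = a n * R a (n + 1) i := by
  rcases i with k | k
  · rfl
  · rcases k with _ | k
    · change (1 : G) = a n * ((a (n + 1 - 1))⁻¹ * 1)
      rw [add_sub_cancel_right, mul_one, mul_inv_cancel]
    · change Rn a n (k + 1) = a n * ((a (n + 1 - 1))⁻¹ * Rn a (n + 1 - 1) (k + 1))
      rw [add_sub_cancel_right, mul_inv_cancel_left]

lemma R_one (a : ℤ → G) (n : ℤ) : R a n 1 = a n := by
  have := R_succ a n 0
  rwa [zero_add, R_zero, mul_one] at this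

lemma R_succ_right (a : ℤ → G) (i : ℤ) : ∀ n, R a n (i + 1) = R a n i * a (n + i) := by
  induction i using Int.induction_on with
  | zero =>
    intro n
    rw [zero_add, R_one, R_zero, one_mul, add_zero]
  | succ i ih =>
    intro n
    rw [R_succ, ih (n + 1), R_succ, mul_assoc]
    congr 3
    ring
  | pred i ih =>
    intro n
    have h1 := R_succ a (n - 1) (-(i : ℤ))
    have h2 := R_succ a (n - 1) (-(i : ℤ) - 1)
    have h3 := ih (n - 1)
    simp only [sub_add_cancel] at h1 h2 ⊢
    rw [h1, h2, mul_assoc] at h3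
    have h4 := mul_left_cancel h3
    rw [h4]
    congr 2
    ring

lemma R_neg_one (a : ℤ → G) (n : ℤ) : R a (n + 1) (-1) = (a n)⁻¹ := by
  have := R_succ a n (-1)
  rw [neg_add_cancel, R_zero] at this
  exact eq_inv_of_mul_eq_one_right this.symm

/-- products of alternating words -/
def E (a : ℤ → G) : ℤ → List ℤ → G
  | _, [] => 1
  | n, i :: L => R a n i * E a (n + i + 1) L

omit [Group G] in
lemma aa_congr (s t : G) {n p : ℤ} (h : Even n ↔ Even p) : aa s t n = aa s t p := by
  unfold aa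
  simp only [h]

lemma R_congr (s t : G) (i : ℤ) : ∀ {n p : ℤ}, (Even n ↔ Even p) →
    R (aa s t) n i = R (aa s t) p i := by
  induction i using Int.induction_on with
  | zero => intro n p h; rfl
  | succ i ih =>
    intro n p h
    rw [R_succ, R_succ, aa_congr s t h, ih (n := n + 1) (p := p + 1)]
    rw [Int.even_add_one, Int.even_add_one, h]
  | pred i ih =>
    intro n p h
    have h1 := R_succ (aa s t) (n - 1) (-(i : ℤ) - 1)
    have h2 := R_succ (aa s t) (p - 1) (-(i : ℤ) - 1)
    have h3 : Even (n - 1) ↔ Even (p - 1) := by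
      rw [Int.even_sub_one, Int.even_sub_one, h]
    simp only [sub_add_cancel] at h1 h2
    rw [ih h3, h2, aa_congr s t h3] at h1
    exact (mul_left_cancel h1).symm

lemma E_congr (s t : G) (L : List ℤ) : ∀ {n p : ℤ}, (Even n ↔ Even p) →
    E (aa s t) n L = E (aa s t) p L := by
  induction L with
  | nil => intro n p h; rfl
  | cons i L ih =>
    intro n p h
    change R (aa s t) n i * E (aa s t) (n + i + 1) L = R (aa s t) p i * E (aa s t) (p + i + 1) L
    rw [R_congr s t i h, ih (n := n + i + 1) (p := p + i + 1)]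
    rw [Int.even_add_one, Int.even_add_one, Int.even_add, Int.even_add, h]

lemma R_alt (s t : G) (k : ℕ) : ∀ n : ℤ, R (aa s t) n k = if Even n then alt s t k else alt t s k := by
  induction k with
  | zero =>
    intro n
    split_ifs <;> rfl
  | succ k ih =>
    intro n
    rw [Nat.cast_succ, R_succ, ih (n + 1)]
    by_cases h : Even n
    · have h' : ¬ Even (n + 1) := by rw [Int.even_add_one, not_not]; exact h
      rw [if_neg h', if_pos h, aa, if_pos h]
      rfl
    · have h' : Even (n + 1) := by rw [Int.even_add_one]; exact h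
      rw [if_pos h', if_neg h, aa, if_neg h]
      rfl

/-- the indices which are allowed -/
def valid (m : ℕ) (i : ℤ) : Prop := (m = 0 ∧ i ≠ 0) ∨ (0 < i ∧ i < m)

/-- the elements having a normal form -/
def NF (s t : G) (m : ℕ) (x : G) : Prop :=
  ∃ (k n : ℤ) (L : List ℤ), (∀ i ∈ L, valid m i) ∧ x = (alt s t m) ^ k * E (aa s t) n L

variable {s t : G} {m : ℕ}

lemma R_delta (hrel : alt s t m = alt t s m) (n : ℤ) : R (aa s t) n m = alt s t m := by
  rw [R_alt, hrel, ite_self]

lemma aa_delta (hrel : alt s t m = alt t s m) (n : ℤ) :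
    aa s t n * alt s t m = alt s t m * aa s t (n + m) := by
  have h1 := R_succ (aa s t) n m
  have h2 := R_succ_right (aa s t) m n
  rw [h1, R_delta hrel, R_delta hrel] at h2
  exact h2

lemma aa_delta_zpow (hrel : alt s t m = alt t s m) (k : ℤ) : ∀ n : ℤ, ∃ n' : ℤ,
    aa s t n * (alt s t m) ^ k = (alt s t m) ^ k * aa s t n' := by
  induction k using Int.induction_on with
  | zero =>
    intro n
    exact ⟨n, by simp⟩
  | succ k ih =>
    intro n
    obtain ⟨n', h⟩ := ih n
    refine ⟨n' + m, ?_⟩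
    rw [_root_.zpow_add_one, ← mul_assoc, h, mul_assoc, aa_delta hrel, mul_assoc]
  | pred k ih =>
    intro n
    obtain ⟨n', h⟩ := ih n
    refine ⟨n' - m, ?_⟩
    have h2 := aa_delta hrel (n' - m)
    rw [sub_add_cancel] at h2
    rw [_root_.zpow_sub_one, ← mul_assoc, h, mul_assoc, mul_assoc]
    congr 1
    rw [eq_inv_mul_iff_mul_eq, ← mul_assoc, ← h2, mul_assoc, mul_inv_cancel, mul_one]

lemma NF_one : NF s t m 1 := ⟨0, 0, [], by simp, by simp [E]⟩

lemma NF_delta {x : G} (h : NF s t m x) (j : ℤ) : NF s t m ((alt s t m) ^ j * x) := by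
  obtain ⟨k, n, L, hL, rfl⟩ := h
  exact ⟨j + k, n, L, hL, by rw [_root_.zpow_add, mul_assoc]⟩

lemma NF_E {n : ℤ} {L : List ℤ} (hL : ∀ i ∈ L, valid m i) : NF s t m (E (aa s t) n L) :=
  ⟨0, n, L, hL, by simp⟩

lemma valid_one (hm : m = 0 ∨ 3 ≤ m) : valid m 1 := by
  unfold valid
  omega

lemma NF_aa_E (hm : m = 0 ∨ 3 ≤ m) (hrel : alt s t m = alt t s m) (n p : ℤ) (L : List ℤ)
    (hL : ∀ i ∈ L, valid m i) : NF s t m (aa s t n * E (aa s t) p L) := by
  by_cases hp : Even n ↔ Even p
  · have e : aa s t n * E (aa s t) p L = E (aa s t) n (1 :: L) := by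
      change _ = R (aa s t) n 1 * E (aa s t) (n + 1 + 1) L
      rw [R_one]
      congr 1
      apply E_congr
      rw [Int.even_add_one, Int.even_add_one, not_not, hp]
    rw [e]
    apply NF_E
    intro i hi
    rcases List.mem_cons.1 hi with rfl | hi
    · exact valid_one hm
    · exact hL i hi
  · have hp' : Even p ↔ Even (n + 1) := by
      rw [Int.even_add_one]
      tauto
    rw [E_congr s t L hp']
    rcases L with _ | ⟨i, L⟩
    · have e : aa s t n * E (aa s t) (n + 1) [] = E (aa s t) n [1] := by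
        change aa s t n * 1 = R (aa s t) n 1 * 1
        rw [R_one]
      rw [e]
      apply NF_E
      intro i hi
      rw [List.mem_singleton] at hi
      subst hi
      exact valid_one hm
    · have e : aa s t n * E (aa s t) (n + 1) (i :: L) =
          R (aa s t) n (i + 1) * E (aa s t) (n + (i + 1) + 1) L := by
        change aa s t n * (R (aa s t) (n + 1) i * E (aa s t) (n + 1 + i + 1) L) = _
        rw [R_succ, mul_assoc]
        congr 3
        ring
      rw [e]
      have hi : valid m i := hL i (List.mem_cons_self)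
      have hL' : ∀ j ∈ L, valid m j := fun j hj => hL j (List.mem_cons_of_mem _ hj)
      by_cases hv : valid m (i + 1)
      · have : NF s t m (E (aa s t) n ((i + 1) :: L)) := by
          apply NF_E
          intro j hj
          rcases List.mem_cons.1 hj with rfl | hj
          · exact hv
          · exact hL' j hj
        exact this
      · have h2 : (m = 0 ∧ i + 1 = 0) ∨ i + 1 = m := by
          unfold valid at hv hi
          omega
        rcases h2 with ⟨-, h2⟩ | h2
        · rw [h2, R_zero, one_mul]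
          exact NF_E hL'
        · have h3 := NF_delta (NF_E (n := n + (i + 1) + 1) hL') 1 (s := s) (t := t)
          rw [_root_.zpow_one] at h3
          rw [h2, R_delta hrel]
          rw [h2] at h3
          exact h3

lemma NF_aa (hm : m = 0 ∨ 3 ≤ m) (hrel : alt s t m = alt t s m) (n : ℤ) {x : G}
    (hx : NF s t m x) : NF s t m (aa s t n * x) := by
  obtain ⟨k, p, L, hL, rfl⟩ := hx
  obtain ⟨n', h⟩ := aa_delta_zpow hrel k n
  rw [← mul_assoc, h, mul_assoc]
  exact NF_delta (NF_aa_E hm hrel n' p L hL) k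

lemma NF_R (hm : m = 0 ∨ 3 ≤ m) (hrel : alt s t m = alt t s m) (k : ℕ) : ∀ (n : ℤ) {x : G}
    (_ : NF s t m x), NF s t m (R (aa s t) n k * x) := by
  induction k with
  | zero =>
    intro n x hx
    rw [Nat.cast_zero, R_zero, one_mul]
    exact hx
  | succ k ih =>
    intro n x hx
    rw [Nat.cast_succ, R_succ, mul_assoc]
    exact NF_aa hm hrel n (ih (n + 1) hx)

lemma NF_inv (hm : m = 0 ∨ 3 ≤ m) (hrel : alt s t m = alt t s m) (n : ℤ) {x : G}
    (hx : NF s t m x) : NF s t m ((aa s t n)⁻¹ * x) := by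
  rcases hm with hm0 | hm3
  · subst hm0
    obtain ⟨k, p, L, hL, rfl⟩ := hx
    have h1 : alt s t 0 = 1 := rfl
    rw [h1, _root_.one_zpow, one_mul]
    have hcons : ∀ i : ℤ, i ≠ 0 → ∀ L : List ℤ, (∀ i ∈ L, valid 0 i) → ∀ j ∈ i :: L, valid 0 j := by
      intro i hi L hL j hj
      rcases List.mem_cons.1 hj with rfl | hj
      · exact Or.inl ⟨rfl, hi⟩
      · exact hL j hj
    by_cases hp : Even p ↔ Even n
    · rw [E_congr s t L hp]
      rcases L with _ | ⟨i, L⟩
      · have e : (aa s t n)⁻¹ * E (aa s t) n [] = E (aa s t) (n + 1) [-1] := by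
          change (aa s t n)⁻¹ * 1 = R (aa s t) (n + 1) (-1) * 1
          rw [R_neg_one]
        rw [e]
        exact NF_E (hcons (-1) (by norm_num) [] hL)
      · have e : (aa s t n)⁻¹ * E (aa s t) n (i :: L) =
            R (aa s t) (n + 1) (i - 1) * E (aa s t) (n + 1 + (i - 1) + 1) L := by
          change (aa s t n)⁻¹ * (R (aa s t) n i * E (aa s t) (n + i + 1) L) = _
          have h := R_succ (aa s t) n (i - 1)
          rw [sub_add_cancel] at h
          rw [h, ← mul_assoc, inv_mul_cancel_left]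
          congr 2
          ring
        rw [e]
        have hL' : ∀ j ∈ L, valid 0 j := fun j hj => hL j (List.mem_cons_of_mem _ hj)
        by_cases hi : i - 1 = 0
        · rw [hi, R_zero, one_mul]
          exact NF_E hL'
        · exact NF_E (n := n + 1) (hcons (i - 1) hi L hL')
    · have hp' : Even p ↔ Even (n + 1 + (-1) + 1) := by
        rw [Int.even_add_one, Int.even_add, Int.even_add_one]
        simp only [Int.reduceNeg, even_neg, Int.not_even_one, iff_false]
        tauto
      rw [E_congr s t L hp', ← R_neg_one]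
      exact NF_E (n := n + 1) (hcons (-1) (by norm_num) L hL)
  · have h1 : (aa s t n)⁻¹ = R (aa s t) (n + 1) ((m - 1 : ℕ) : ℤ) * (alt s t m) ^ (-1 : ℤ) := by
      have h := R_succ (aa s t) n ((m - 1 : ℕ) : ℤ)
      have h2 : (((m - 1 : ℕ) : ℤ) + 1) = m := by
        omega
      rw [h2, R_delta hrel] at h
      rw [h, _root_.zpow_neg_one, _root_.mul_inv_rev, mul_inv_cancel_left]
    rw [h1, mul_assoc]
    exact NF_R (Or.inr hm3) hrel (m - 1) (n + 1) (NF_delta hx (-1))

lemma NF_closure (hm : m = 0 ∨ 3 ≤ m) (hrel : alt s t m = alt t s m) (x : G)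
    (hx : x ∈ Subgroup.closure {s, t}) : NF s t m x := by
  have h0 : aa s t 0 = s := by simp [aa]
  have h1 : aa s t 1 = t := by simp [aa]
  induction hx using Subgroup.closure_induction_left with
  | one => exact NF_one
  | mul_left a ha y hy ih =>
    rcases ha with rfl | ha
    · have := NF_aa hm hrel 0 ih
      rwa [h0] at this
    · rw [Set.mem_singleton_iff] at ha
      subst ha
      have := NF_aa hm hrel 1 ih
      rwa [h1] at this
  | inv_mul_cancel a ha y hy ih =>
    rcases ha with rfl | ha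
    · have := NF_inv hm hrel 0 ih
      rwa [h0] at this
    · rw [Set.mem_singleton_iff] at ha
      subst ha
      have := NF_inv hm hrel 1 ih
      rwa [h1] at this

lemma len_alt (len : G →* Multiplicative ℤ) (k : ℕ) :
    ∀ a b : G, (len a = Multiplicative.ofAdd 1) → (len b = Multiplicative.ofAdd 1) →
    len (alt a b k) = Multiplicative.ofAdd (k : ℤ) := by
  induction k with
  | zero =>
    intro a b ha hb
    change len 1 = _
    rw [map_one]
    rfl
  | succ k ih =>
    intro a b ha hb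
    change len (a * alt b a k) = _
    rw [map_mul, ih b a hb ha, ha, ← ofAdd_add, Nat.cast_succ, add_comm]

end words

/-! ## The matrices of the words -/

section matrices

variable {G : Type} [Group G] {s t : G} (f : G →* GL (Fin 2) ℝ) (lam : ℝ)
    (fs : (f s : Matrix (Fin 2) (Fin 2) ℝ) = !![1, lam; 0, 1])
    (ft : (f t : Matrix (Fin 2) (Fin 2) ℝ) = !![1, 0; -lam, 1])

include fs in
lemma rho_coe : ((f s * Sg : GL (Fin 2) ℝ) : Matrix (Fin 2) (Fin 2) ℝ) = !![-lam, 1; -1, 0] := by
  rw [Units.val_mul, fs, Sg_coe]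
  ext i j
  fin_cases i <;> fin_cases j <;> simp [Matrix.mul_apply, Fin.sum_univ_two]

include fs ft in
lemma ft_conj : f t = Sg * f s * Sg⁻¹ := by
  rw [eq_mul_inv_iff_mul_eq]
  apply Units.ext
  rw [Units.val_mul, Units.val_mul, fs, ft, Sg_coe]
  ext i j
  fin_cases i <;> fin_cases j <;> simp [Matrix.mul_apply, Fin.sum_univ_two]

lemma Sg_even (g : GL (Fin 2) ℝ) (n : ℤ) (hn : Even n) : Sg ^ n * g = g * Sg ^ n := by
  obtain ⟨c, rfl⟩ := hn
  have h : Sg ^ (c + c) = (Sg * Sg) ^ c := by
    rw [_root_.zpow_add, (Commute.refl Sg).mul_zpow]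
  rw [h]
  exact ((Sg_sq_comm g).zpow_left c).eq

include fs ft in
lemma f_aa (n : ℤ) : f (aa s t n) = Sg ^ n * f s * Sg ^ (-n) := by
  by_cases hn : Even n
  · rw [aa, if_pos hn, Sg_even _ n hn, _root_.zpow_neg, mul_inv_cancel_right]
  · have hn' : Even (n - 1) := by
      rw [Int.even_sub_one]
      exact hn
    have e1 : Sg ^ n = Sg ^ (n - 1) * Sg := by
      rw [← _root_.zpow_add_one, sub_add_cancel]
    rw [aa, if_neg hn, _root_.zpow_neg, e1, _root_.mul_inv_rev]
    have e2 : Sg ^ (n - 1) * Sg * f s * (Sg⁻¹ * (Sg ^ (n - 1))⁻¹) =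
        Sg ^ (n - 1) * (Sg * f s * Sg⁻¹) * (Sg ^ (n - 1))⁻¹ := by group
    rw [e2, ← ft_conj f lam fs ft, Sg_even _ _ hn', mul_inv_cancel_right]

include fs ft in
lemma f_aa' (n : ℤ) : f (aa s t n) = Sg ^ n * (f s * Sg) * Sg ^ (-n - 1) := by
  rw [f_aa f lam fs ft]
  group

include fs ft in
lemma f_R (i : ℤ) : ∀ n : ℤ, f (R (aa s t) n i) = Sg ^ n * (f s * Sg) ^ i * Sg ^ (-i - n) := by
  induction i using Int.induction_on with
  | zero =>
    intro n
    rw [R_zero, map_one, _root_.zpow_zero, mul_one, neg_zero, zero_sub, _root_.zpow_neg,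
      mul_inv_cancel]
  | succ i ih =>
    intro n
    rw [R_succ, map_mul, ih (n + 1), f_aa' f lam fs ft]
    generalize f s * Sg = r
    group
  | pred i ih =>
    intro n
    have h1 := R_succ (aa s t) (n - 1) (-(i : ℤ) - 1)
    rw [sub_add_cancel, sub_add_cancel] at h1
    have h2 : R (aa s t) n (-(i : ℤ) - 1) = (aa s t (n - 1))⁻¹ * R (aa s t) (n - 1) (-(i : ℤ)) := by
      rw [h1, inv_mul_cancel_left]
    rw [h2, map_mul, map_inv, ih (n - 1), f_aa' f lam fs ft]
    generalize f s * Sg = r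
    group

/-- the matrix of a product of alternating words, rotated back -/
noncomputable def FF (n : ℤ) (L : List ℤ) : GL (Fin 2) ℝ := Sg ^ (-n) * f (E (aa s t) n L)

include fs ft in
lemma FF_cons (n i : ℤ) (L : List ℤ) : FF (s := s) (t := t) f n (i :: L) =
    (f s * Sg) ^ i * (Sg * FF (s := s) (t := t) f (n + i + 1) L) := by
  change Sg ^ (-n) * f (R (aa s t) n i * E (aa s t) (n + i + 1) L) = _
  rw [map_mul, f_R f lam fs ft, FF]
  group

lemma FF_nil (n : ℤ) : FF (s := s) (t := t) f n [] = Sg ^ (-n) := by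
  change Sg ^ (-n) * f 1 = _
  rw [map_one, mul_one]

variable (S : ℤ → ℝ) (h0 : S 0 = 0)
    (h1 : S 1 = 1) (hrec : ∀ i, S (i + 1) + S (i - 1) = lam * S i)

include fs ft h0 h1 hrec in
lemma pingpong (hlam : lam ≠ 0) (m : ℕ)
    (good : ∀ i, valid m i → S i ≠ 0 ∧ 0 ≤ S i * S (i + 1) ∧ 0 ≤ S i * S (i - 1)) (L : List ℤ) :
    (∀ i ∈ L, valid m i) → L ≠ [] → ∀ n : ℤ, ∃ v, pr v = 0 ∧
      0 < pr (act (FF (s := s) (t := t) f n L) v) := by
  have hrho := rho_coe f lam fs
  have hpr := pr_rho lam (f s * Sg) hrho S h0 h1 hrec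
  induction L with
  | nil => intro _ h; exact absurd rfl h
  | cons i L ih =>
    intro hL _ n
    obtain ⟨g1, g2, g3⟩ := good i (hL i List.mem_cons_self)
    have hL' : ∀ j ∈ L, valid m j := fun j hj => hL j (List.mem_cons_of_mem _ hj)
    rw [FF_cons f lam fs ft]
    by_cases hne : L = []
    · subst hne
      have hw : ∃ w, pr w = 0 ∧ 0 < pr (act ((f s * Sg) ^ i) w) := by
        have hsum : S i * S (i + 1) + S i * S (i - 1) = lam * (S i * S i) := by
          rw [← mul_add, hrec]
          ring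
        have hne : lam * (S i * S i) ≠ 0 := mul_ne_zero hlam (mul_ne_zero g1 g1)
        rcases g2.lt_or_eq with h | h
        · refine ⟨![1, 0], by simp [pr], ?_⟩
          rw [hpr]
          simp only [Matrix.cons_val_zero, Matrix.cons_val_one, mul_one, mul_zero, sub_zero]
          linarith
        · rcases g3.lt_or_eq with h' | h'
          · refine ⟨![0, 1], by simp [pr], ?_⟩
            rw [hpr]
            simp only [Matrix.cons_val_zero, Matrix.cons_val_one, mul_one, mul_zero, zero_sub]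
            linarith
          · exfalso
            apply hne
            rw [← hsum, ← h, ← h', add_zero]
      obtain ⟨w, hw0, hw1⟩ := hw
      have hK : Sg * FF (s := s) (t := t) f (n + i + 1) [] ∈ K := by
        rw [FF_nil]
        exact K.mul_mem Sg_mem (K.zpow_mem Sg_mem _)
      refine ⟨act (Sg * FF (s := s) (t := t) f (n + i + 1) [])⁻¹ w, ?_, ?_⟩
      · exact (K.inv_mem hK w).2 hw0
      · rw [← act_mul, mul_assoc, mul_inv_cancel, mul_one]
        exact hw1
    · obtain ⟨v, hv0, hv1⟩ := ih hL' hne (n + i + 1)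
      refine ⟨v, hv0, ?_⟩
      rw [act_mul, act_mul]
      set u := act (FF (s := s) (t := t) f (n + i + 1) L) v
      have hw : pr (act Sg u) < 0 := by
        rw [pr_Sg]
        linarith
      set w := act Sg u
      rw [hpr]
      rw [pr] at hw
      have e : (S (i + 1) * w 0 - S i * w 1) * (S i * w 0 - S (i - 1) * w 1) =
          (S i * S (i + 1)) * (w 0 * w 0) + (S i * S (i - 1)) * (w 1 * w 1) +
          (S i * S i) * (-(w 0 * w 1)) + (S (i + 1) * S (i - 1)) * (-(w 0 * w 1)) := by ring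
      have hpos : 0 < S i * S i := mul_self_pos.2 g1
      have hnn : 0 ≤ S (i + 1) * S (i - 1) := by
        have := mul_nonneg g2 g3
        have e2 : S i * S (i + 1) * (S i * S (i - 1)) =
            (S i * S i) * (S (i + 1) * S (i - 1)) := by ring
        rw [e2] at this
        exact nonneg_of_mul_nonneg_right this hpos
      have q1 := mul_nonneg g2 (mul_self_nonneg (w 0))
      have q2 := mul_nonneg g3 (mul_self_nonneg (w 1))
      have q3 := mul_pos hpos (neg_pos.2 hw)
      have q4 := mul_nonneg hnn (neg_pos.2 hw).le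
      rw [e]
      linarith

end matrices

/-! ## The main statement -/

/-- the Chebyshev values -/
noncomputable def cheb (m : ℕ) (i : ℤ) : ℝ :=
  if m = 0 then i else Real.sin (i * (Real.pi / m)) / Real.sin (Real.pi / m)

lemma cheb_data (m : ℕ) (hm : m = 0 ∨ 3 ≤ m) :
    cheb m 0 = 0 ∧ cheb m 1 = 1 ∧
    (∀ i, cheb m (i + 1) + cheb m (i - 1) = 2 * Real.cos (Real.pi / m) * cheb m i) ∧
    2 * Real.cos (Real.pi / m) ≠ 0 ∧
    (∀ i, valid m i → cheb m i ≠ 0 ∧ 0 ≤ cheb m i * cheb m (i + 1) ∧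
      0 ≤ cheb m i * cheb m (i - 1)) ∧ cheb m m = 0 ∧ cheb m (m + 1) * cheb m (m - 1) ≠ 0 := by
  rcases hm with rfl | hm
  · have e : ∀ i : ℤ, cheb 0 i = i := fun i => by simp [cheb]
    simp only [e]
    refine ⟨by simp, by simp, ?_, by simp, ?_, by simp, by simp⟩
    · intro i
      push_cast
      simp
      ring
    · intro i hi
      have hi0 : i ≠ 0 := by
        unfold valid at hi
        rcases hi with ⟨-, h⟩ | ⟨h, h'⟩
        · exact h
        · simp at h'
          omega
      refine ⟨by exact_mod_cast hi0, ?_, ?_⟩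
      · have : (0 : ℤ) ≤ i * (i + 1) := by
          rcases lt_or_gt_of_ne hi0 with h | h
          · exact mul_nonneg_of_nonpos_of_nonpos h.le (by omega)
          · exact mul_nonneg h.le (by omega)
        exact_mod_cast this
      · have : (0 : ℤ) ≤ i * (i - 1) := by
          rcases lt_or_gt_of_ne hi0 with h | h
          · exact mul_nonneg_of_nonpos_of_nonpos h.le (by omega)
          · exact mul_nonneg h.le (by omega)
        exact_mod_cast this
  · have hm0 : m ≠ 0 := by omega
    have hmpos : (0 : ℝ) < m := by exact_mod_cast Nat.pos_of_ne_zero hm0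
    have hm3 : (3 : ℝ) ≤ m := by exact_mod_cast hm
    have e : ∀ i : ℤ, cheb m i = Real.sin (i * (Real.pi / m)) / Real.sin (Real.pi / m) := fun i => by
      simp [cheb, hm0]
    have hpi := Real.pi_pos
    set θ := Real.pi / m with hθ
    have hmθ : (m : ℝ) * θ = Real.pi := by
      rw [hθ]
      field_simp
    have hθ0 : 0 < θ := div_pos hpi hmpos
    have hθ1 : θ < Real.pi / 2 := by
      nlinarith
    have hsin : 0 < Real.sin θ := Real.sin_pos_of_pos_of_lt_pi hθ0 (by linarith)
    have hcos : 0 < Real.cos θ := Real.cos_pos_of_mem_Ioo ⟨by linarith, hθ1⟩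
    have hsinpos : ∀ i : ℤ, 0 < i → i < m → 0 < Real.sin (i * θ) := by
      intro i h1 h2
      have h1' : (0 : ℝ) < i := by exact_mod_cast h1
      have h2' : (i : ℝ) < m := by exact_mod_cast h2
      apply Real.sin_pos_of_pos_of_lt_pi (mul_pos h1' hθ0)
      rw [← hmθ]
      exact mul_lt_mul_of_pos_right h2' hθ0
    have hsinnn : ∀ i : ℤ, 0 ≤ i → i ≤ m → 0 ≤ Real.sin (i * θ) := by
      intro i h1 h2
      have h1' : (0 : ℝ) ≤ i := by exact_mod_cast h1
      have h2' : (i : ℝ) ≤ m := by exact_mod_cast h2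
      apply Real.sin_nonneg_of_nonneg_of_le_pi (mul_nonneg h1' hθ0.le)
      rw [← hmθ]
      exact mul_le_mul_of_nonneg_right h2' hθ0.le
    refine ⟨?_, ?_, ?_, ?_, ?_, ?_, ?_⟩
    · simp [e]
    · rw [e]
      simp [hsin.ne']
    · intro i
      rw [e, e, e]
      push_cast
      rw [add_mul, sub_mul, one_mul, Real.sin_add, Real.sin_sub]
      field_simp
      ring
    · exact (mul_pos two_pos hcos).ne'
    · intro i hi
      have hi' : 0 < i ∧ i < m := by
        unfold valid at hi
        rcases hi with ⟨h, -⟩ | h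
        · exact absurd h hm0
        · exact h
      have p0 := hsinpos i hi'.1 hi'.2
      have p1 := hsinnn (i + 1) (by omega) (by omega)
      have p2 := hsinnn (i - 1) (by omega) (by omega)
      rw [e, e, e]
      refine ⟨(div_pos p0 hsin).ne', ?_, ?_⟩
      · exact mul_nonneg (div_pos p0 hsin).le (div_nonneg p1 hsin.le)
      · exact mul_nonneg (div_pos p0 hsin).le (div_nonneg p2 hsin.le)
    · rw [e]
      push_cast
      rw [hmθ, Real.sin_pi, zero_div]
    · rw [e, e]
      push_cast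
      rw [add_mul, sub_mul, one_mul, hmθ, Real.sin_add, Real.sin_sub, Real.sin_pi, Real.cos_pi]
      simp [hsin.ne']

/-- N3 -/
theorem dihedral (G : Type) [Group G] (s t : G) (m : ℕ) (hm : m = 0 ∨ 3 ≤ m)
    (hrel : alt s t m = alt t s m) (len : G →* Multiplicative ℤ)
    (hs : len s = Multiplicative.ofAdd 1) (ht : len t = Multiplicative.ofAdd 1)
    (f : G →* GL (Fin 2) ℝ)
    (fs : (f s : Matrix (Fin 2) (Fin 2) ℝ) = !![1, 2 * Real.cos (Real.pi / m); 0, 1])
    (ft : (f t : Matrix (Fin 2) (Fin 2) ℝ) = !![1, 0; -(2 * Real.cos (Real.pi / m)), 1])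
    (x : G) (hx : x ∈ Subgroup.closure {s, t}) (hlen : len x = 1) (hf : f x = 1) : x = 1 := by
  obtain ⟨h0, h1, hrec, hlam, good, hSm, hSm'⟩ := cheb_data m hm
  set lam := 2 * Real.cos (Real.pi / m)
  obtain ⟨k, n, L, hL, hxe⟩ := NF_closure hm hrel x hx
  -- the Garside element preserves the axes
  have hrhoK : (f s * Sg) ^ (m : ℤ) ∈ K := by
    intro v
    rw [pr_rho lam (f s * Sg) (rho_coe f lam fs) (cheb m) h0 h1 hrec, hSm, zero_mul, zero_mul,
      sub_zero, zero_sub]
    have e : cheb m (m + 1) * v 0 * -(cheb m (m - 1) * v 1) =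
        -(cheb m (m + 1) * cheb m (m - 1)) * pr v := by
      rw [pr]
      ring
    rw [e, mul_eq_zero, neg_eq_zero, or_iff_right hSm']
  have hDK : f (alt s t m) ∈ K := by
    rw [← R_delta hrel 0, f_R f lam fs ft]
    exact K.mul_mem (K.mul_mem (K.zpow_mem Sg_mem _) hrhoK) (K.zpow_mem Sg_mem _)
  have hLnil : L = [] := by
    by_contra hne
    obtain ⟨v, hv0, hv1⟩ := pingpong f lam fs ft (cheb m) h0 h1 hrec hlam m good L hL hne n
    have hK : FF (s := s) (t := t) f n L ∈ K := by
      have e : FF (s := s) (t := t) f n L = Sg ^ (-n) * (f (alt s t m) ^ k)⁻¹ := by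
        rw [FF]
        congr 1
        rw [eq_inv_iff_mul_eq_one, ← map_zpow, ← map_mul]
        rw [hxe, map_mul] at hf
        rw [map_mul]
        exact mul_eq_one_comm.1 hf
      rw [e]
      exact K.mul_mem (K.zpow_mem Sg_mem _) (K.inv_mem (K.zpow_mem hDK _))
    rw [(hK v).2 hv0] at hv1
    exact lt_irrefl 0 hv1
  subst hLnil
  have hx2 : x = alt s t m ^ k := by
    rw [hxe]
    exact mul_one _
  rw [hx2, map_zpow, len_alt len m s t hs ht, ← ofAdd_zsmul] at hlen
  have h3 : k • (m : ℤ) = 0 := hlen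
  rw [smul_eq_mul, mul_eq_zero] at h3
  rw [hx2]
  rcases h3 with h3 | h3
  · rw [h3, _root_.zpow_zero]
  · have : m = 0 := by exact_mod_cast h3
    subst this
    exact _root_.one_zpow k

end Pool.Agent.helper80.LT
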